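import Pool.Agent.Helper15.T4.Stmts

set_option autoImplicit false

/-!
T4, module RAT: the second moment.
-/

open Finset MeasureTheory Filter Topology

namespace Pool.Agent.Helper51.T4

open Pool.Agent.Helper15.T4

theorem rat_isMat {n : ℕ} : IsMat (∅ : Finset (Sym2 (HE n))) := by
  have hc : cov (∅ : Finset (Sym2 (HE n))) = ∅ := by
    ext h
    simp [cov]
  unfold IsMat
  rw [hc]
  refine ⟨?_, ?_, ?_⟩
  · intro e he
    exact absurd he (Finset.notMem_empty e)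
  · intro e he
    exact absurd he (Finset.notMem_empty e)
  · intro h hh
    exact absurd hh (Finset.notMem_empty h)

theorem rat_sum (hSUMX : ST_SUMX) (hPSI0 : ST_PSI0) {L ι : Type} [Fintype L] [Fintype ι]
    (m : Mdl L ι) (n : ℕ) :
    ∑ M ∈ PM (univ : Finset (HE n)), m.X M = GI (fun x => m.P x ^ n) := by
  have h := hSUMX L ι m n ∅ rat_isMat
  rw [Finset.filter_true_of_mem (fun M _ => Finset.empty_subset M)] at h
  rw [h]
  congr 1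
  funext x
  exact hPSI0 L ι m n x

theorem rat_lim (hSUMX : ST_SUMX) (hPSI0 : ST_PSI0) (hASY : ST_ASY) {L ι : Type} [Fintype L]
    [Fintype ι] (m : Mdl L ι) (u : ι → ℝ) (q : ℝ) (hP : Peak m.P u q (QT m.T u q)) :
    Tendsto (fun N : ℕ => (∑ M ∈ PM (univ : Finset (HE (2 * N))), m.X M) / ((NF q N : ℝ) : ℂ)) atTop
      (𝓝 (2 * (((3 / (2 * Real.pi)) ^ ((Fintype.card ι : ℝ) / 2) : ℝ) : ℂ) * GG (QT m.T u q))) := by
  have h := hASY ι m.P u q (QT m.T u q) hP 0 0 (fun _ => 1) (by norm_num) continuous_const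
    (by intro s x; simp)
  have e1 : ∀ N : ℕ, GI (fun x => m.P x ^ (2 * N - 0) * 1) * ((6 * (N : ℝ)) ^ 0 : ℝ) /
      ((NF q N : ℝ) : ℂ) = (∑ M ∈ PM (univ : Finset (HE (2 * N))), m.X M) / ((NF q N : ℝ) : ℂ) := by
    intro N
    rw [rat_sum hSUMX hPSI0 m (2 * N)]
    simp
  have e2 : 2 * (((3 / (2 * Real.pi)) ^ ((Fintype.card ι : ℝ) / 2) : ℝ) : ℂ) * GG (QT m.T u q) * 1 /
      (q : ℂ) ^ 0 = 2 * (((3 / (2 * Real.pi)) ^ ((Fintype.card ι : ℝ) / 2) : ℝ) : ℂ) *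
        GG (QT m.T u q) := by
    simp
  rw [← e2]
  exact h.congr e1

theorem rat_norm {ι : Type} [Fintype ι] (D : ℕ) (hD : Fintype.card ι = D) (G : ℂ) (g : ℝ)
    (hg : ‖G‖ ^ 2 = (2 * Real.pi) ^ D / g) :
    ‖2 * (((3 / (2 * Real.pi)) ^ ((Fintype.card ι : ℝ) / 2) : ℝ) : ℂ) * G‖ ^ 2 = 4 * 3 ^ D / g := by
  have hpi : 0 < 2 * Real.pi := by positivity
  have hb : 0 ≤ 3 / (2 * Real.pi) := by positivity
  have hr : ((3 / (2 * Real.pi)) ^ ((Fintype.card ι : ℝ) / 2)) ^ 2 = (3 / (2 * Real.pi)) ^ D := by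
    rw [← Real.rpow_natCast, ← Real.rpow_mul hb, hD]
    have : (D : ℝ) / 2 * ((2 : ℕ) : ℝ) = (D : ℝ) := by
      push_cast
      ring
    rw [this, Real.rpow_natCast]
  rw [norm_mul, norm_mul, mul_pow, mul_pow, hg, Complex.norm_real, Real.norm_eq_abs, sq_abs, hr,
    div_pow]
  have h2 : ‖(2 : ℂ)‖ = 2 := by simp
  rw [h2]
  have hp : (2 * Real.pi) ^ D ≠ 0 := pow_ne_zero _ hpi.ne'
  by_cases hg0 : g = 0
  · rw [hg0]
    simp
  · field_simp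
    ring

theorem rat_NF_pos {q : ℝ} (hq : 0 < q) (N : ℕ) : 0 < NF q N := by
  unfold NF
  have h2 : 0 < (q ^ 2 * Real.exp (-3)) ^ N := by positivity
  rcases Nat.eq_zero_or_pos N with h | h
  · subst h
    simp
  · have h1 : 0 < (6 * (N : ℝ)) ^ (3 * N) := by positivity
    exact mul_pos h1 h2

theorem rat_NF (N : ℕ) : NF (8 / 3) N * NF 1 N = NF q1 N ^ 2 := by
  unfold NF q1
  rw [Real.sq_sqrt (by norm_num)]
  have h1 : ((8 / 3 : ℝ) ^ 2 * Real.exp (-3)) ^ N * (1 ^ 2 * Real.exp (-3)) ^ N =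
      ((8 / 3 * Real.exp (-3)) ^ N) ^ 2 := by
    rw [← mul_pow, ← pow_mul, mul_comm N 2, pow_mul]
    congr 1
    ring
  rw [mul_pow _ _ 2, ← h1]
  ring

theorem RAT (hSUMX : ST_SUMX) (hPSI0 : ST_PSI0) (hXC : ST_XC) (hASY : ST_ASY) (hPK0 : ST_PK0)
    (hPK1 : ST_PK1) (hPK2 : ST_PK2) (hGSS : ST_GSS) : ST_RAT := by
  obtain ⟨g0, g1, g2⟩ := hGSS
  have l0 := rat_lim hSUMX hPSI0 hASY m0 (fun _ => 1) 1 hPK0
  have l1 := rat_lim hSUMX hPSI0 hASY m1 u1 q1 hPK1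
  have l2 := rat_lim hSUMX hPSI0 hASY m2 u2 (8 / 3) hPK2
  have n0 := rat_norm (ι := Unit) 1 (by simp) (GG (QT m0.T (fun _ => 1) 1)) 6 (by rw [g0]; ring)
  have n1 := rat_norm (ι := L1) 12 (by simp [L1]) (GG (QT m1.T u1 q1)) (6 * 3 ^ 11 * (343 / 256)) g1
  have n2 := rat_norm (ι := L1 × L1) 144 (by simp [L1]) (GG (QT m2.T u2 (8 / 3)))
    (6 * 3 ^ 143 * (343 / 256) ^ 2 * Pi2) g2
  generalize 2 * (((3 / (2 * Real.pi)) ^ ((Fintype.card Unit : ℝ) / 2) : ℝ) : ℂ) *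
    GG (QT m0.T (fun _ => 1) 1) = c0 at l0 n0
  generalize 2 * (((3 / (2 * Real.pi)) ^ ((Fintype.card L1 : ℝ) / 2) : ℝ) : ℂ) *
    GG (QT m1.T u1 q1) = c1 at l1 n1
  generalize 2 * (((3 / (2 * Real.pi)) ^ ((Fintype.card (L1 × L1) : ℝ) / 2) : ℝ) : ℂ) *
    GG (QT m2.T u2 (8 / 3)) = c2 at l2 n2
  have hPi : 0 < Pi2 := by
    unfold Pi2
    norm_num
  have n0' : ‖c0‖ ^ 2 = 2 := by rw [n0]; norm_num
  have n1' : ‖c1‖ ^ 2 = 512 / 343 := by rw [n1]; norm_num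
  have n2' : ‖c2‖ ^ 2 = 2 * (256 / 343) ^ 2 / Pi2 := by
    rw [n2, show (3 : ℝ) ^ 144 = 3 * 3 ^ 143 by ring]
    have h3 : (3 : ℝ) ^ 143 ≠ 0 := by positivity
    generalize (3 : ℝ) ^ 143 = t at h3
    field_simp
    ring
  have hc1 : c1 ≠ 0 := by
    intro h
    rw [h] at n1'
    norm_num at n1'
  have hL : ‖c2 * c0 / c1 ^ 2‖ = Real.sqrt (1 / Pi2) := by
    symm
    rw [Real.sqrt_eq_iff_mul_self_eq (by positivity) (norm_nonneg _), ← pow_two, norm_div, norm_mul,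
      norm_pow, div_pow, mul_pow, n2', n0', n1']
    field_simp
    norm_num
  have hlim : Tendsto (fun N : ℕ => ((∑ M ∈ PM (univ : Finset (HE (2 * N))), m2.X M) /
      ((NF (8 / 3) N : ℝ) : ℂ)) * ((∑ M ∈ PM (univ : Finset (HE (2 * N))), m0.X M) /
      ((NF 1 N : ℝ) : ℂ)) / ((∑ M ∈ PM (univ : Finset (HE (2 * N))), m1.X M) /
      ((NF q1 N : ℝ) : ℂ)) ^ 2) atTop (𝓝 (c2 * c0 / c1 ^ 2)) :=
    (l2.mul l0).div (l1.pow 2) (pow_ne_zero 2 hc1)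
  have hlim2 := hlim.norm
  rw [hL] at hlim2
  unfold ST_RAT
  refine hlim2.congr ?_
  intro N
  have s0 : ∑ M ∈ PM (univ : Finset (HE (2 * N))), m0.X M =
      ((PM (univ : Finset (HE (2 * N)))).card : ℂ) := by
    rw [Finset.sum_congr rfl (fun M _ => (hXC (2 * N) M).1)]
    simp
  have s1 : ∑ M ∈ PM (univ : Finset (HE (2 * N))), m1.X M =
      ((∑ M ∈ PM (univ : Finset (HE (2 * N))), (Xc M : ℝ) : ℝ) : ℂ) := by
    rw [Finset.sum_congr rfl (fun M _ => (hXC (2 * N) M).2.1)]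
    push_cast
    rfl
  have s2 : ∑ M ∈ PM (univ : Finset (HE (2 * N))), m2.X M =
      ((∑ M ∈ PM (univ : Finset (HE (2 * N))), (Xc M : ℝ) ^ 2 : ℝ) : ℂ) := by
    rw [Finset.sum_congr rfl (fun M _ => (hXC (2 * N) M).2.2)]
    push_cast
    rfl
  rw [s0, s1, s2]
  have p0 := rat_NF_pos (q := 1) one_pos N
  have p1 := rat_NF_pos (q := q1) (by unfold q1; positivity) N
  have p2 := rat_NF_pos (q := 8 / 3) (by norm_num) N
  have hNF := rat_NF N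
  have hS2 : 0 ≤ ∑ M ∈ PM (univ : Finset (HE (2 * N))), (Xc M : ℝ) ^ 2 :=
    Finset.sum_nonneg (fun M _ => by positivity)
  have hS1 : 0 ≤ ∑ M ∈ PM (univ : Finset (HE (2 * N))), (Xc M : ℝ) :=
    Finset.sum_nonneg (fun M _ => by positivity)
  generalize ∑ M ∈ PM (univ : Finset (HE (2 * N))), (Xc M : ℝ) ^ 2 = A2 at hS2
  generalize ∑ M ∈ PM (univ : Finset (HE (2 * N))), (Xc M : ℝ) = A1 at hS1
  have hS0 : (0 : ℝ) ≤ ((PM (univ : Finset (HE (2 * N)))).card : ℝ) := by positivity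
  have hcast : ((PM (univ : Finset (HE (2 * N)))).card : ℂ) =
      ((((PM (univ : Finset (HE (2 * N)))).card : ℝ)) : ℂ) := by
    push_cast
    rfl
  rw [hcast]
  generalize ((PM (univ : Finset (HE (2 * N)))).card : ℝ) = A0 at hS0
  generalize NF (8 / 3) N = x2 at p2 hNF
  generalize NF 1 N = x0 at p0 hNF
  generalize NF q1 N = x1 at p1 hNF
  have hform : ((A2 : ℂ) / (x2 : ℂ)) * ((A0 : ℂ) / (x0 : ℂ)) / ((A1 : ℂ) / (x1 : ℂ)) ^ 2 =
      ((A2 * A0 / A1 ^ 2 : ℝ) : ℂ) := by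
    have hx : (x2 : ℂ) * (x0 : ℂ) = (x1 : ℂ) ^ 2 := by
      exact_mod_cast hNF
    have hx1 : (x1 : ℂ) ≠ 0 := by exact_mod_cast p1.ne'
    push_cast
    rw [div_mul_div_comm, hx, div_pow, div_div_div_cancel_right₀ (pow_ne_zero 2 hx1)]
  rw [hform, Complex.norm_real, Real.norm_eq_abs, abs_of_nonneg (by positivity)]

end Pool.Agent.Helper51.T4
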