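import Pool.Agent.Helper15.T4.Stmts

set_option autoImplicit false

/-!
T4, module FIB: a cycle of length `k + 1` has exactly `2 (k + 1)` data (rotations of one datum and of its
reversal).
-/

open Finset

namespace Pool.Agent.Helper51.T4

open Pool.Agent.Helper15.T4

/-- The pair number `i`. -/
def fibg {n k : ℕ} (c : CycD n k) (i : Fin (k + 1)) : Sym2 (HE n) :=
  s(((c i).1, (c i).2.2), ((c (i + 1)).1, (c (i + 1)).2.1))

theorem fib_mem {n k : ℕ} (c : CycD n k) (e : Sym2 (HE n)) : e ∈ E c ↔ ∃ i, fibg c i = e := by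
  unfold E fibg
  simp only [Finset.mem_image, Finset.mem_univ, true_and]

/-- Rotation. -/
def fibrot {n k : ℕ} (c : CycD n k) (j : Fin (k + 1)) : CycD n k := fun i => c (i + j)

/-- Reversal. -/
def fibrev {n k : ℕ} (c : CycD n k) : CycD n k := fun i =>
  ((c (-i)).1, (c (-i)).2.2, (c (-i)).2.1)

theorem fibrot_valid {n k : ℕ} {c : CycD n k} (h : Valid c) (j : Fin (k + 1)) :
    Valid (fibrot c j) := by
  refine ⟨?_, fun i => h.2 (i + j)⟩
  intro i i' hi
  have := h.1 (show (fun i => (c i).1) (i + j) = (fun i => (c i).1) (i' + j) from hi)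
  exact add_right_cancel this

theorem fibrev_valid {n k : ℕ} {c : CycD n k} (h : Valid c) : Valid (fibrev c) := by
  refine ⟨?_, fun i => (h.2 (-i)).symm⟩
  intro i i' hi
  have := h.1 (show (fun i => (c i).1) (-i) = (fun i => (c i).1) (-i') from hi)
  exact neg_injective this

theorem fibrot_E {n k : ℕ} (c : CycD n k) (j : Fin (k + 1)) : E (fibrot c j) = E c := by
  have hg : ∀ i, fibg (fibrot c j) i = fibg c (i + j) := by
    intro i
    unfold fibg fibrot
    rw [add_right_comm i 1 j]
  ext e
  rw [fib_mem, fib_mem]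
  constructor
  · rintro ⟨i, rfl⟩
    exact ⟨i + j, (hg i).symm⟩
  · rintro ⟨i, rfl⟩
    refine ⟨i - j, ?_⟩
    rw [hg, sub_add_cancel]

theorem fibrev_E {n k : ℕ} (c : CycD n k) : E (fibrev c) = E c := by
  have hg : ∀ i, fibg (fibrev c) i = fibg c (-(i + 1)) := by
    intro i
    have h1 : -(i + 1) + 1 = -i := by abel
    unfold fibg fibrev
    rw [h1]
    exact Sym2.eq_swap
  ext e
  rw [fib_mem, fib_mem]
  constructor
  · rintro ⟨i, rfl⟩
    exact ⟨-(i + 1), (hg i).symm⟩
  · rintro ⟨i, rfl⟩
    refine ⟨-i - 1, ?_⟩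
    rw [hg]
    congr 1
    abel

/-- Following a cycle: one step. -/
theorem fib_step (hS : ST_STR) {n k : ℕ} {c d : CycD n k} (hc : Valid c) (hd : Valid d)
    (hE : E c = E d) (i : Fin (k + 1)) (hi : c i = d i) : c (i + 1) = d (i + 1) := by
  obtain ⟨hm, _, _, _, hcov⟩ := hS n k c hc
  obtain ⟨_, _, _, _, hcov'⟩ := hS n k d hd
  have he1 : fibg c i ∈ E c := (fib_mem c _).2 ⟨i, rfl⟩
  have he2 : fibg d i ∈ E c := by
    rw [hE]
    exact (fib_mem d _).2 ⟨i, rfl⟩
  have hh : ((c i).1, (c i).2.2) ∈ cov (E c) := (hcov _).2 ⟨i, Or.inr rfl⟩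
  obtain ⟨e, _, hu⟩ := hm.2.2 _ hh
  have h1 : fibg c i = e := hu _ ⟨he1, Sym2.mem_mk_left _ _⟩
  have h2 : fibg d i = e := hu _ ⟨he2, by rw [hi]; exact Sym2.mem_mk_left _ _⟩
  have h3 : fibg c i = fibg d i := h1.trans h2.symm
  unfold fibg at h3
  rw [hi] at h3
  have h4 := Sym2.congr_right.1 h3
  have h5 : (c (i + 1)).1 = (d (i + 1)).1 := (Prod.mk.inj h4).1
  have h6 : (c (i + 1)).2.1 = (d (i + 1)).2.1 := (Prod.mk.inj h4).2
  have hh' : ((c (i + 1)).1, (c (i + 1)).2.2) ∈ cov (E d) := by
    rw [← hE]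
    exact (hcov _).2 ⟨i + 1, Or.inr rfl⟩
  obtain ⟨i', hi'⟩ := (hcov' _).1 hh'
  have hv : (c (i + 1)).1 = (d i').1 := by
    rcases hi' with h | h
    · exact (Prod.mk.inj h).1
    · exact (Prod.mk.inj h).1
  have hii : i' = i + 1 := hd.1 (show (fun i => (d i).1) i' = (fun i => (d i).1) (i + 1) from
    hv.symm.trans h5)
  subst hii
  have h7 : (c (i + 1)).2.2 = (d (i + 1)).2.2 := by
    rcases hi' with h | h
    · exfalso
      have h8 : (c (i + 1)).2.2 = (d (i + 1)).2.1 := (Prod.mk.inj h).2
      exact hc.2 (i + 1) (h6.trans h8.symm)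
    · exact (Prod.mk.inj h).2
  exact Prod.ext h5 (Prod.ext h6 h7)

theorem fib_follow (hS : ST_STR) {n k : ℕ} {c d : CycD n k} (hc : Valid c) (hd : Valid d)
    (hE : E c = E d) (h0 : c 0 = d 0) : c = d := by
  funext i
  induction i using Fin.induction with
  | zero => exact h0
  | succ i ih =>
    have h1 := fib_step hS hc hd hE i.castSucc ih
    rwa [Fin.coeSucc_eq_succ] at h1

theorem FIB (hS : ST_STR) : ST_FIB := by
  classical
  intro n k C hC
  unfold Cyc at hC
  rw [Finset.mem_image] at hC
  obtain ⟨c0, h0, rfl⟩ := hC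
  have hv0 : Valid c0 := (Finset.mem_filter.1 h0).2
  have hvr : Valid (fibrev c0) := fibrev_valid hv0
  let f : Bool × Fin (k + 1) → CycD n k := fun p =>
    if p.1 then fibrot c0 p.2 else fibrot (fibrev c0) p.2
  have hrot0 : ∀ (c : CycD n k) (j : Fin (k + 1)), fibrot c j 0 = c j := by
    intro c j
    unfold fibrot
    rw [zero_add]
  have hne : ∀ j j' : Fin (k + 1), c0 j ≠ fibrev c0 j' := by
    intro j j' h
    have h1 : (c0 j).1 = (c0 (-j')).1 := congrArg (fun p => p.1) h
    have h2 : j = -j' := hv0.1 (show (fun i => (c0 i).1) j = (fun i => (c0 i).1) (-j') from h1)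
    have h3 : (c0 j).2.1 = (c0 (-j')).2.2 := congrArg (fun p => p.2.1) h
    rw [← h2] at h3
    exact hv0.2 j h3
  have hf : Function.Injective f := by
    rintro ⟨b, j⟩ ⟨b', j'⟩ h
    have h0 : f (b, j) 0 = f (b', j') 0 := by rw [h]
    cases b <;> cases b'
    · have h1 : fibrev c0 j = fibrev c0 j' := by
        have := h0
        simp only [f, Bool.false_eq_true, if_false] at this
        rwa [hrot0, hrot0] at this
      have h2 : j = j' := hvr.1 (congrArg Prod.fst h1)
      rw [h2]
    · exfalso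
      have h1 : fibrev c0 j = c0 j' := by
        have := h0
        simp only [f, Bool.false_eq_true, if_false, if_true] at this
        rwa [hrot0, hrot0] at this
      exact hne j' j h1.symm
    · exfalso
      have h1 : c0 j = fibrev c0 j' := by
        have := h0
        simp only [f, Bool.false_eq_true, if_false, if_true] at this
        rwa [hrot0, hrot0] at this
      exact hne j j' h1
    · have h1 : c0 j = c0 j' := by
        have := h0
        simp only [f, if_true] at this
        rwa [hrot0, hrot0] at this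
      have h2 : j = j' := hv0.1 (congrArg Prod.fst h1)
      rw [h2]
  have hrange : {c : CycD n k | Valid c ∧ E c = E c0} = Set.range f := by
    ext c
    constructor
    · rintro ⟨hc, hE⟩
      obtain ⟨_, _, _, _, hcov⟩ := hS n k c hc
      obtain ⟨_, _, _, _, hcov0⟩ := hS n k c0 hv0
      have ha : ((c 0).1, (c 0).2.1) ∈ cov (E c0) := by
        rw [← hE]
        exact (hcov _).2 ⟨0, Or.inl rfl⟩
      have hb : ((c 0).1, (c 0).2.2) ∈ cov (E c0) := by
        rw [← hE]
        exact (hcov _).2 ⟨0, Or.inr rfl⟩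
      obtain ⟨j, hj⟩ := (hcov0 _).1 ha
      obtain ⟨j', hj'⟩ := (hcov0 _).1 hb
      have e1 : (c 0).1 = (c0 j).1 := by
        rcases hj with h | h
        · exact (Prod.mk.inj h).1
        · exact (Prod.mk.inj h).1
      have e2 : (c 0).1 = (c0 j').1 := by
        rcases hj' with h | h
        · exact (Prod.mk.inj h).1
        · exact (Prod.mk.inj h).1
      have e3 : j' = j := hv0.1 (show (fun i => (c0 i).1) j' = (fun i => (c0 i).1) j from
        e2.symm.trans e1)
      subst e3
      have key : c 0 = c0 j' ∨ c 0 = fibrev c0 (-j') := by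
        rcases hj with h | h <;> rcases hj' with h' | h'
        · exfalso
          have a1 : (c 0).2.1 = (c0 j').2.1 := (Prod.mk.inj h).2
          have a2 : (c 0).2.2 = (c0 j').2.1 := (Prod.mk.inj h').2
          exact hc.2 0 (a1.trans a2.symm)
        · left
          have a1 : (c 0).2.1 = (c0 j').2.1 := (Prod.mk.inj h).2
          have a2 : (c 0).2.2 = (c0 j').2.2 := (Prod.mk.inj h').2
          exact Prod.ext e1 (Prod.ext a1 a2)
        · right
          have a1 : (c 0).2.1 = (c0 j').2.2 := (Prod.mk.inj h).2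
          have a2 : (c 0).2.2 = (c0 j').2.1 := (Prod.mk.inj h').2
          unfold fibrev
          rw [neg_neg]
          exact Prod.ext e1 (Prod.ext a1 a2)
        · exfalso
          have a1 : (c 0).2.1 = (c0 j').2.2 := (Prod.mk.inj h).2
          have a2 : (c 0).2.2 = (c0 j').2.2 := (Prod.mk.inj h').2
          exact hc.2 0 (a1.trans a2.symm)
      rcases key with h | h
      · refine ⟨(true, j'), ?_⟩
        simp only [f, if_true]
        symm
        apply fib_follow hS hc (fibrot_valid hv0 j')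
        · rw [hE, fibrot_E]
        · rw [h, hrot0]
      · refine ⟨(false, -j'), ?_⟩
        simp only [f, Bool.false_eq_true, if_false]
        symm
        apply fib_follow hS hc (fibrot_valid hvr (-j'))
        · rw [hE, fibrot_E, fibrev_E]
        · rw [h, hrot0]
    · rintro ⟨⟨b, j⟩, rfl⟩
      cases b
      · simp only [f, Bool.false_eq_true, if_false]
        exact ⟨fibrot_valid hvr j, by rw [fibrot_E, fibrev_E]⟩
      · simp only [f, if_true]
        exact ⟨fibrot_valid hv0 j, fibrot_E c0 j⟩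
  rw [hrange, ← Set.image_univ, Set.ncard_image_of_injective _ hf, Set.ncard_univ,
    Nat.card_eq_fintype_card, Fintype.card_prod, Fintype.card_bool, Fintype.card_fin]

end Pool.Agent.Helper51.T4
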